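import Pool.Agent.P.MP_c7fa75_pr.L1.QL

/-! Spreading the errors over the levels, and averaging over the stack. -/

set_option autoImplicit false

namespace Pool.Agent.P.MP_c7fa75_pr.L1

open MeasureTheory ProbabilityTheory Filter Topology Finset
open scoped ENNReal Classical
open Pool.Agent.P.MP_c7fa75_pr.T Pool.Agent.P.MP_c7fa75_pr.R2

/-- The error `mm` spread over the levels. -/
noncomputable def bb (B : ℝ) (i : ℕ) : ℝ := min (B ^ 2 / (i : ℝ) ^ 2) √(B / i)

/-- The error of the stacks that push to the left for a long time. -/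
noncomputable def cc (γ : ℝ) (M i : ℕ) : ℝ := if i ≤ M then (M : ℝ) ^ γ else 0

theorem bb_nonneg (B : ℝ) (i : ℕ) : 0 ≤ bb B i := le_min (by positivity) (by positivity)

theorem cc_nonneg (γ : ℝ) (M i : ℕ) : 0 ≤ cc γ M i := by
  unfold cc; split_ifs <;> positivity

theorem win_ge {β : ℕ → ℝ} (h0 : ∀ i, 0 ≤ β i) {z a b : ℕ} (ha : z / 2 ≤ a) (hb : b ≤ 4 * z)
    {c : ℝ} (h : ∀ i, a ≤ i → i < b → c ≤ β i) : (b - a : ℕ) * c ≤ win β z := by
  have h1 := card_nsmul_le_sum (Ico a b) β c fun i hi => h i (mem_Ico.1 hi).1 (mem_Ico.1 hi).2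
  rw [Nat.card_Ico, nsmul_eq_mul] at h1
  exact h1.trans (sum_le_sum_of_subset_of_nonneg (Ico_subset_Ico ha hb) fun i _ _ => h0 i)

theorem mm_win {B : ℝ} (hB : 0 ≤ B) {z : ℕ} (hz : 1 ≤ z) : mm B z ≤ 4 * win (bb B) z := by
  have z0 : (0 : ℝ) < z := by exact_mod_cast hz
  have m0 : 0 ≤ mm B z := mm_nonneg z0.le
  have h1 := win_ge (bb_nonneg B) (z := z) (a := z) (b := 2 * z) (by omega) (by omega)
    (c := mm B z / (4 * z)) fun i h1 h2 => by
      have i1 : (z : ℝ) ≤ i := by exact_mod_cast h1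
      have i2 : (i : ℝ) ≤ 2 * z := by exact_mod_cast h2.le
      have i0 : (0 : ℝ) < i := by linarith
      refine le_min ?_ (Real.le_sqrt_of_sq_le ?_)
      · have h3 : mm B z * z ≤ B ^ 2 := (le_div_iff₀ z0).1 (min_le_left _ _)
        have h4 := mul_le_mul_of_nonneg_left (pow_le_pow_left₀ i0.le i2 2) m0
        rw [div_le_div_iff₀ (by positivity) (by positivity)]
        nlinarith
      · have h3 : mm B z ^ 2 ≤ z * B :=
          (Real.le_sqrt m0 (by positivity)).1 (min_le_right _ _)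
        have h4 := mul_le_mul h3 i2 i0.le (by positivity)
        rw [div_pow, div_le_div_iff₀ (by positivity) i0]
        nlinarith [mul_nonneg hB (sq_nonneg (z : ℝ))]
  rw [show 2 * z - z = z by omega] at h1
  have e : (z : ℝ) * (mm B z / (4 * z)) = mm B z / 4 := by field_simp
  linarith

theorem sum_bb {B : ℕ} (hB : 1 ≤ B) (n : ℕ) : ∑ i ∈ range n, bb B i ≤ 3 * B := by
  have B0 : (0 : ℝ) < B := by exact_mod_cast hB
  have h1 : ∀ n : ℕ, ∑ i ∈ range (n + 1), bb B i ≤ 2 * √(B : ℝ) * √(n : ℝ) := by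
    intro n
    induction n with
    | zero => simp [bb]
    | succ n ih =>
      have h2 : √((n : ℝ) + 1) ^ 2 = n + 1 := Real.sq_sqrt (by positivity)
      have h3 : √(n : ℝ) ^ 2 = n := Real.sq_sqrt (by positivity)
      have h4 : 1 ≤ 2 * (√((n : ℝ) + 1) - √(n : ℝ)) * √((n : ℝ) + 1) := by
        nlinarith [sq_nonneg (√((n : ℝ) + 1) - √(n : ℝ))]
      have h5 : bb B (n + 1) ≤ √(B : ℝ) * (2 * (√((n : ℝ) + 1) - √(n : ℝ))) := by
        refine (min_le_right _ _).trans ?_
        push_cast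
        rw [Real.sqrt_div B0.le, div_le_iff₀ (by positivity)]
        nlinarith [Real.sqrt_nonneg (B : ℝ)]
      rw [sum_range_succ]
      push_cast
      linarith
  have h2 : ∀ n : ℕ, B ≤ n → ∑ i ∈ range (n + 1), bb B i ≤ 3 * B - (B : ℝ) ^ 2 / n := by
    intro n hn
    induction n, hn using Nat.le_induction with
    | base =>
      refine (h1 B).trans (le_of_eq ?_)
      rw [mul_assoc, Real.mul_self_sqrt B0.le]
      field_simp
      ring
    | succ n hn ih =>
      have n0 : (0 : ℝ) < n := B0.trans_le (by exact_mod_cast hn)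
      have h3 : bb B (n + 1) ≤ (B : ℝ) ^ 2 / n - (B : ℝ) ^ 2 / (n + 1) := by
        refine (min_le_left _ _).trans ?_
        push_cast
        rw [div_sub_div _ _ n0.ne' (by positivity), div_le_div_iff₀ (by positivity) (by positivity)]
        nlinarith [mul_nonneg (sq_nonneg (B : ℝ)) n0.le, sq_nonneg (B : ℝ)]
      rw [sum_range_succ]
      push_cast
      linarith
  have h3 := sum_le_sum_of_subset_of_nonneg (f := bb B) (range_mono (show n ≤ n + B + 1 by omega))
    fun i _ _ => bb_nonneg _ i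
  have h4 : 0 ≤ (B : ℝ) ^ 2 / (n + B : ℕ) := by positivity
  linarith [h2 (n + B) (by omega)]

theorem ind_win {γ : ℝ} (hγ : 0 ≤ γ) (M z : ℕ) :
    (if z ≤ M then z * (z : ℝ) ^ γ else 0) ≤ 2 * win (cc γ M) z := by
  split_ifs with h
  · have h1 := win_ge (cc_nonneg γ M) (z := z) (a := z / 2) (b := z) le_rfl (by omega)
      (c := (z : ℝ) ^ γ) fun i _ h2 => by
        rw [cc, if_pos (by omega)]
        exact Real.rpow_le_rpow (by positivity) (by exact_mod_cast h) hγ
    have h2 : (z : ℝ) ≤ 2 * (z - z / 2 : ℕ) := by exact_mod_cast (by omega : z ≤ 2 * (z - z / 2))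
    have h3 := mul_le_mul_of_nonneg_right h2 (show 0 ≤ (z : ℝ) ^ γ by positivity)
    linarith
  · exact mul_nonneg zero_le_two (sum_nonneg fun i _ => cc_nonneg γ M i)

theorem sum_cc (γ : ℝ) (M n : ℕ) : ∑ i ∈ range n, cc γ M i ≤ (M + 1) * (M : ℝ) ^ γ := by
  unfold cc
  rw [← sum_filter, sum_const, nsmul_eq_mul]
  refine mul_le_mul_of_nonneg_right ?_ (by positivity)
  have : ((range n).filter (· ≤ M)).card ≤ (range (M + 1)).card :=
    card_le_card fun i hi => mem_range.2 (Nat.lt_succ_of_le (mem_filter.1 hi).2)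
  rw [card_range] at this
  exact_mod_cast this

theorem av (P0 : Measure (ℕ → ℝ)) [IsProbabilityMeasure P0] (h01 : In01 P0)
    {β : (ℕ → ℝ) → ℕ → ℝ} {G : (ℕ → ℝ) → ℝ} (hm : ∀ i, Measurable fun w => β w i)
    (hβ : ∀ w i, |2 * w i - 1| ≤ β w i) (hG : Integrable G P0)
    (h : ∀ᵐ w ∂P0, ∀ n, ∑ i ∈ range n, β w i ≤ G w) :
    ∃ α : ℕ → ℝ, (∀ i, 0 ≤ α i) ∧ Summable α ∧ (∃ L : ℝ, Tendsto (dd P0) atTop (𝓝 L)) ∧
      (∀ z n : ℕ, z / 2 ≤ n → n ≤ 4 * z → |dd P0 n - dd P0 z| ≤ win α z) ∧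
      ∀ z, Integrable (fun w => win (β w) z) P0 ∧ ∫ w, win (β w) z ∂P0 = win α z := by
  have b0 : ∀ w i, 0 ≤ β w i := fun w i => (abs_nonneg _).trans (hβ w i)
  have hi : ∀ i, Integrable (fun w => β w i) P0 := fun i =>
    hG.mono' (hm i).aestronglyMeasurable (h.mono fun w hw => by
      rw [Real.norm_of_nonneg (b0 w i)]
      exact (single_le_sum (fun j _ => b0 w j) (self_mem_range_succ i)).trans (hw _))
  have hs : ∀ s : Finset ℕ, Integrable (fun w => ∑ i ∈ s, β w i) P0 := fun s =>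
    integrable_finsetSum s fun i _ => hi i
  have he : ∀ s : Finset ℕ, ∫ w, ∑ i ∈ s, β w i ∂P0 = ∑ i ∈ s, ∫ w, β w i ∂P0 := fun s =>
    integral_finsetSum s fun i _ => hi i
  have a0 : ∀ i, 0 ≤ ∫ w, β w i ∂P0 := fun i => integral_nonneg fun w => b0 w i
  have sm : Summable fun i => ∫ w, β w i ∂P0 :=
    summable_of_sum_range_le (c := ∫ w, G w ∂P0) a0 fun n => by
      rw [← he]
      exact integral_mono_ae (hs _) hG (h.mono fun w hw => hw n)
  refine ⟨_, a0, sm, ?_, fun z n h1 h2 => ?_, fun z => ⟨hs _, he _⟩⟩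
  · have h1 : Summable (fun i : ℕ => ∫ w, (2 * w i - 1) ∂P0) :=
      Summable.of_norm_bounded sm fun i => abs_integral_le_integral_abs.trans
        (integral_mono (ENV2x.intT h01 i).abs (hi i) fun w => hβ w i)
    exact ⟨_, (h1.hasSum.tendsto_sum_nat).congr fun n => (ENV2x.dd_eq h01 n).symm⟩
  · rw [dd, dd, ← integral_sub (ENV2x.intP h01 n) (ENV2x.intP h01 z), win, ← he]
    exact abs_integral_le_integral_abs.trans (integral_mono
      ((ENV2x.intP h01 n).sub (ENV2x.intP h01 z)).abs (hs _)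
      fun w => (abs_psum_win w h1 h2).trans (sum_le_sum fun i _ => hβ w i))

end Pool.Agent.P.MP_c7fa75_pr.L1
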