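import Pool.Agent.P.MP_c7fa75_pr.L1.Av

/-! The Lyapunov functions under a first moment. -/

set_option autoImplicit false

namespace Pool.Agent.P.MP_c7fa75_pr.L1

open MeasureTheory ProbabilityTheory Filter Topology Finset
open scoped ENNReal Classical
open Pool.Agent.P.MP_c7fa75_pr.T Pool.Agent.P.MP_c7fa75_pr.R2

/-- `A` bounds the absolute drift of the stack and is integrable. -/
def Fm (P0 : Measure (ℕ → ℝ)) (A : (ℕ → ℝ) → ℕ) : Prop :=
  Measurable A ∧ Integrable (fun w => (A w : ℝ)) P0 ∧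
    ∀ᵐ w ∂P0, ∀ n, ∑ i ∈ range n, |2 * w i - 1| ≤ (A w : ℝ)

/-- After the time `M` the stack sends a fraction `η` of the steps to the right. -/
def El (P0 : Measure (ℕ → ℝ)) (η γ : ℝ) (M : (ℕ → ℝ) → ℕ) : Prop :=
  0 < η ∧ η ≤ 1 ∧ 0 < γ ∧ γ ≤ 1 / 2 ∧ Measurable M ∧
    Integrable (fun w => ((M w : ℝ) + 1) * (M w : ℝ) ^ γ) P0 ∧
    ∀ᵐ w ∂P0, ∀ n : ℕ, η * (n - M w / 8) ≤ ∑ i ∈ range n, w i

theorem win_add (α β : ℕ → ℝ) (c : ℝ) (z : ℕ) :
    win (fun i => α i + c * β i) z = win α z + c * win β z := by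
  rw [win, sum_add_distrib, ← mul_sum]; rfl

theorem not_summable_half {a sl : ℕ → ℝ} {L : ℝ} (ha : Tendsto (fun n => a n + sl n) atTop (𝓝 L))
    (h : ¬ Summable (gg fun n => max 0 (a n + sl n))) :
    ¬ Summable (gg fun n => max (1 / 2) (a n + sl n)) := fun hs => by
  rcases lt_or_ge (1 / 2) L with hL | hL
  · refine h (SEQx.cmp0 ((ha.eventually (lt_mem_nhds hL)).mono fun n hn => ?_) hs)
    exact max_le (hn.le.trans (le_max_right _ _)) (le_max_right _ _)
  · refine SEQx.const_no (SEQx.cmp0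
      ((ha.eventually (gt_mem_nhds (show L < 1 by linarith))).mono fun n hn => ?_) hs)
    exact max_le (by norm_num) hn.le

theorem lyk (P0 : Measure (ℕ → ℝ)) [IsProbabilityMeasure P0] {A : (ℕ → ℝ) → ℕ} {k : ℕ}
    (h01 : In01 P0) (hA : Fm P0 A) (hk : 1 ≤ k)
    (hns : ¬ Summable (gg (fun n => 1 - k + dd P0 n))) :
    ∃ (f : ℕ → ℝ≥0∞) (z0 : ℕ), (∀ z, f z < ⊤) ∧ Tendsto f atTop (𝓝 ⊤) ∧
      ∀ z, z0 ≤ z → ∫⁻ e, f (Uo e (z + 1 - k)) ∂Qa P0 ≤ f z := by
  obtain ⟨C, hC, hq⟩ := qu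
  have iB : Integrable (fun w => (k : ℝ) + A w) P0 := (integrable_const _).add hA.2.1
  obtain ⟨α, a0, a1, ⟨L, hL⟩, hwin, a4⟩ := av P0 h01
    (β := fun w i => |2 * w i - 1| + 4 * C * bb (k + A w) i)
    (G := fun w => A w + 4 * C * (3 * (k + A w)))
    (fun i => Measurable.add (by fun_prop)
      ((Measurable.of_discrete (f := fun a : ℕ => 4 * C * bb (k + a) i)).comp hA.1))
    (fun w i => le_add_of_nonneg_right (mul_nonneg (by positivity) (bb_nonneg _ _)))
    (hA.2.1.add ((iB.const_mul 3).const_mul _)) (hA.2.2.mono fun w hw n => by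
      rw [sum_add_distrib, ← mul_sum]
      have := sum_bb (B := k + A w) (by omega) n
      push_cast at this
      exact add_le_add (hw n) (mul_le_mul_of_nonneg_left this (by positivity)))
  set H := ∫ w, ((k : ℝ) + A w) ∂P0 with hH
  have H0 : 0 ≤ H := integral_nonneg fun w => by positivity
  obtain ⟨sl, hsl0, hsl, hsls, hslw⟩ :=
    got_SLACK α (1 / 2) (C * H) a0 a1 (by norm_num) (by norm_num) (by positivity)
  set th : ℕ → ℝ := fun n => 1 - k + dd P0 n with hth
  have hthL : Tendsto th atTop (𝓝 (1 - k + L)) := tendsto_const_nhds.add hL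
  obtain ⟨hL1, hns2⟩ := (got_SEQ th sl (1 - k + L) 2 hthL hsl0 hsl hsls (by norm_num)).2 hns
  set ka : ℕ → ℝ := fun n => max (1 / 2) (th n + sl n) with hka
  have hff : Tendsto (ff ka) atTop atTop :=
    (not_summable_iff_tendsto_nat_atTop_of_nonneg (fun i => (gg_pos ka i).le)).1
      (not_summable_half (hthL.add hsl) hns2)
  obtain ⟨z1, hz1⟩ := eventually_atTop.1
    ((hthL.add hsl).eventually (gt_mem_nhds (show _ < (2 : ℝ) by linarith)))
  refine ⟨fun x => ENNReal.ofReal (ff ka x), z1 + 6 + 2 * k, fun _ => ENNReal.ofReal_lt_top,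
    ENNReal.tendsto_ofReal_atTop.comp hff, fun z hz => ?_⟩
  have hw0 : 0 ≤ win α z := sum_nonneg fun i _ => a0 i
  set err : ℝ := win α z + C * H / √(z : ℝ) with herr
  have hkey : ∀ n, 3 * z ≤ 4 * n → 4 * n ≤ 5 * z → th z + err ≤ th n + sl n := by
    intro n h1 h2
    have h4 := hslw z n (by omega) h1 h2
    have h5 := (abs_le.1 (hwin z n (by omega) (by omega))).1
    rw [← Real.sqrt_eq_rpow] at h4
    simp only [hth, herr]
    linarith
  have hkb2 : max 0 (th z + err) ≤ 2 :=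
    max_le (by norm_num) ((hkey z (by omega) (by omega)).trans (hz1 z (by omega)).le)
  refine AUPx.fatou (Qa P0) ka (z + 1 - k) (4 * z) _
    (fun N => (Ex_Qa P0 (z + 1 - k) N (fun a _ => ff ka a)).1) fun N hN => ?_
  obtain ⟨-, hI, hF⟩ := Ex_Qa P0 (z + 1 - k) N (fun a _ => ff ka a)
  obtain ⟨hJ, hV⟩ := AUPx.integ P0 (ENV2x.intP h01 z) (a4 z).1 iB (ff ka z) (gg ka z) (1 - k)
    (max 0 (th z + err)) C 0 (1 / √(z : ℝ))
  rw [hF]
  refine (integral_mono_ae hI hJ ?_).trans ?_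
  · filter_upwards [h01, hA.2.2] with w hw hA
    refine (hq w hw (A w) hA k z N (max 0 (th z + err)) ka hk (by omega) hN
      (fun n => le_max_left _ _) (le_max_left _ _) hkb2 fun n h1 h2 =>
        max_le_max (by norm_num) (hkey n h1 h2)).trans
      (add_le_add le_rfl (mul_le_mul_of_nonneg_left ?_ (gg_pos _ _).le))
    have := mul_le_mul_of_nonneg_left
      (mm_win (B := k + A w) (z := z) (by positivity) (by omega)) hC
    rw [win_add, div_eq_mul_one_div]
    linarith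
  · rw [hV, (a4 z).2, ← hH]
    refine add_le_of_nonpos_right (mul_nonpos_of_nonneg_of_nonpos (gg_pos ka z).le ?_)
    have h6 : th z + err ≤ max 0 (th z + err) := le_max_right _ _
    have h7 : th z = 1 - k + ∫ w, psum w z ∂P0 := rfl
    rw [div_eq_mul_one_div] at herr
    linarith

theorem lys (P0 : Measure (ℕ → ℝ)) [IsProbabilityMeasure P0] {A M : (ℕ → ℝ) → ℕ} {η γ : ℝ} {k : ℕ}
    (h01 : In01 P0) (hA : Fm P0 A) (hM : El P0 η γ M) (hk : 1 ≤ k)
    (hsum : Summable (gg (fun n => 1 - k + dd P0 n))) :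
    ∃ (f : ℕ → ℝ≥0∞) (z0 : ℕ), k ≤ z0 ∧ (∀ z, z < z0 → 1 ≤ f z) ∧ Tendsto f atTop (𝓝 0) ∧
      ∀ z, z0 ≤ z → ∫⁻ e, f (Rr e (tau e (z + 1 - k) (4 * z))) ∂Qa P0 ≤ f z := by
  obtain ⟨η0, η1, hγ0, hγ1, mM, iM, hM⟩ := hM
  obtain ⟨C0, hC0, hloss⟩ := got_LOSS γ hγ0 (by linarith)
  obtain ⟨C, hC, hq⟩ := ql hC0 η0 η1
  have iB : Integrable (fun w => (k : ℝ) + A w) P0 := (integrable_const _).add hA.2.1
  obtain ⟨α, a0, a1, ⟨L, hL⟩, hwin, a4⟩ := av P0 h01
    (β := fun w i => |2 * w i - 1| + 4 * C * bb (k + A w) i + 2 * C * cc γ (M w) i)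
    (G := fun w => A w + 4 * C * (3 * (k + A w)) + 2 * C * ((M w + 1) * (M w : ℝ) ^ γ))
    (fun i => (Measurable.add (by fun_prop)
      ((Measurable.of_discrete (f := fun a : ℕ => 4 * C * bb (k + a) i)).comp hA.1)).add
      ((Measurable.of_discrete (f := fun a : ℕ => 2 * C * cc γ a i)).comp mM))
    (fun w i => by
      have := bb_nonneg (k + A w) i
      have := cc_nonneg γ (M w) i
      rw [add_assoc]
      exact le_add_of_nonneg_right (by positivity))
    ((hA.2.1.add ((iB.const_mul 3).const_mul _)).add (iM.const_mul _))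
    (hA.2.2.mono fun w hw n => by
      rw [sum_add_distrib, sum_add_distrib, ← mul_sum, ← mul_sum]
      have := sum_bb (B := k + A w) (by omega) n
      push_cast at this
      exact add_le_add (add_le_add (hw n) (mul_le_mul_of_nonneg_left this (by positivity)))
        (mul_le_mul_of_nonneg_left (sum_cc _ _ _) (by positivity)))
  set H := ∫ w, ((k : ℝ) + A w) ∂P0 with hH
  have H0 : 0 ≤ H := integral_nonneg fun w => by positivity
  obtain ⟨sl, hsl0, hsl1, hsl2, hsl3⟩ :=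
    got_SLACK α (1 / 2) (C * H) a0 a1 (by norm_num) (by norm_num) (by positivity)
  set th : ℕ → ℝ := fun n => 1 - k + dd P0 n with hth
  have hthL : Tendsto th atTop (𝓝 (1 - k + L)) := tendsto_const_nhds.add hL
  obtain ⟨hL1, hsk⟩ := (got_SEQ th sl (1 - k + L) (1 + γ) hthL hsl0 hsl1 hsl2 (by linarith)).1 hsum
  set ka : ℕ → ℝ := fun n => max 0 (min (1 + γ) (th n - sl n)) with hka
  obtain ⟨z1, hz1⟩ := eventually_atTop.1
    ((hthL.sub hsl1).eventually (lt_mem_nhds (show (0 : ℝ) < _ by linarith)))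
  refine LYSx.fin P0 ka hsk k (z1 + 6 + 2 * k) (by omega) fun z hz => ?_
  have hw0 : 0 ≤ win α z := sum_nonneg fun i _ => a0 i
  simp only [← Real.sqrt_eq_rpow] at hsl3
  set err : ℝ := win α z + C * H / √(z : ℝ) with herr
  have hte : 0 ≤ th z - err := by
    linarith [hz1 z (by omega), hsl3 z z (by omega) (by omega) (by omega)]
  set kb : ℝ := min (1 + γ) (th z - err) with hkb
  have hkb0 : 0 ≤ kb := le_min (by linarith) hte
  have hkk : ∀ n, 3 * z ≤ 4 * n → 4 * n ≤ 5 * z → ka n ≤ kb := by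
    intro n h1 h2
    refine max_le hkb0 (min_le_min_left _ ?_)
    have h3 := hsl3 z n (by omega) h1 h2
    have h4 := (abs_le.1 (hwin z n (by omega) (by omega))).2
    simp only [hth]
    linarith
  have hkg : ∀ n, ka n ≤ 1 + γ := fun n => max_le (by linarith) (min_le_left _ _)
  have z1' : (1 : ℝ) ≤ z := by exact_mod_cast (show 1 ≤ z by omega)
  have ht2 : ((z : ℝ) ^ γ) ^ 2 ≤ z := by
    rw [← Real.rpow_natCast, ← Real.rpow_mul (by linarith)]
    exact (Real.rpow_le_rpow_of_exponent_le z1' (by push_cast; linarith)).trans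
      (Real.rpow_one _).le
  obtain ⟨-, hI, hF⟩ := Ex_Qa P0 (z + 1 - k) (4 * z) (fun a _ => ff ka a)
  obtain ⟨hJ, hV⟩ := AUPx.integ P0 (ENV2x.intP h01 z) (a4 z).1.fun_neg iB (ff ka z) (gg ka z)
    (1 - k) kb (-C) 0 (1 / √(z : ℝ))
  rw [hF]
  refine le_trans ?_ (integral_mono_ae hJ hI ?_)
  · rw [hV, integral_neg, (a4 z).2, ← hH]
    refine le_add_of_nonneg_right (mul_nonneg (gg_pos ka z).le ?_)
    have h6 : kb ≤ th z - err := min_le_right _ _
    have h7 : th z = 1 - k + ∫ w, psum w z ∂P0 := rfl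
    rw [div_eq_mul_one_div] at herr
    linarith
  · filter_upwards [h01, hA.2.2, hM] with w hw hA hM
    refine le_trans (add_le_add le_rfl (mul_le_mul_of_nonneg_left ?_ (gg_pos _ _).le))
      (hq w hw (A w) (M w) hA hM k z ((z : ℝ) ^ γ) kb ka hk (by omega)
        (Real.one_le_rpow z1' hγ0.le) ht2 (fun n => le_max_left _ _)
        (fun n => (hkg n).trans (by linarith)) hkb0 ((min_le_left _ _).trans (by linarith)) hkk
        (hloss ka hkg z (by omega)))
    have h1 := mul_le_mul_of_nonneg_left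
      (mm_win (B := k + A w) (z := z) (by positivity) (by omega)) hC
    have h2 := mul_le_mul_of_nonneg_left (ind_win hγ0.le (M w) z) hC
    rw [win_add, win_add, div_eq_mul_one_div ((k : ℝ) + A w)]
    linarith

end Pool.Agent.P.MP_c7fa75_pr.L1
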