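import Pool.Agent.P.MP_c7fa75_pr.L1.QU

/-! Quenched lower bound with an error that is summable under a first moment. -/

set_option autoImplicit false

namespace Pool.Agent.P.MP_c7fa75_pr.L1

open MeasureTheory ProbabilityTheory Filter Topology Finset
open scoped ENNReal Classical
open Pool.Agent.P.MP_c7fa75_pr.T Pool.Agent.P.MP_c7fa75_pr.R2

theorem psum_eq (w : ℕ → ℝ) (n : ℕ) : psum w n = 2 * ∑ i ∈ range n, w i - n := by
  rw [psum, sum_sub_distrib, mul_sum]; simp

theorem gg_anti {κ : ℕ → ℝ} (h : ∀ n, 0 ≤ κ n) : Antitone (gg κ) :=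
  antitone_nat_of_succ_le fun n => by
    rw [gg_succ]
    refine mul_le_of_le_one_right (gg_pos κ n).le (Real.exp_le_one_iff.2 ?_)
    have := h (n + 1)
    have : 0 ≤ κ (n + 1) / ((n : ℝ) + 1) := by positivity
    linarith

/-- Cutting the exponent below the window changes the scale function by a factor. -/
theorem cut {κ : ℕ → ℝ} (h0 : ∀ n, 0 ≤ κ n) (h2 : ∀ n, κ n ≤ 2) {z : ℕ} (hz : 1 ≤ z) :
    ∃ (κ' : ℕ → ℝ) (ρ : ℝ), 0 < ρ ∧ (∀ n, 3 * z ≤ 4 * n → κ' n = κ n) ∧ gg κ z = ρ * gg κ' z ∧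
      ff κ' z ≤ Real.exp 3 * z * gg κ' z ∧
      ∀ a, ff κ z + ρ * (ff κ' a - ff κ' z) - (if 4 * a < 3 * z then ff κ z else 0) ≤ ff κ a := by
  set κ' : ℕ → ℝ := fun n => if 3 * z ≤ 4 * n then κ n else 0 with hκ'
  have z0 : (0 : ℝ) < z := by exact_mod_cast hz
  have p0 : ∀ n, 0 ≤ κ' n := fun n => by
    simp only [hκ']; split_ifs; exacts [h0 n, le_rfl]
  set ρ := gg κ (3 * z / 4) / gg κ' (3 * z / 4) with hρ
  have ρ0 : 0 < ρ := div_pos (gg_pos _ _) (gg_pos _ _)
  have e1 : ∀ i, 3 * z / 4 ≤ i → gg κ i = ρ * gg κ' i := by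
    intro i hi
    induction i, hi using Nat.le_induction with
    | base => rw [hρ, div_mul_cancel₀ _ (gg_pos _ _).ne']
    | succ i hi ih =>
      have : κ' (i + 1) = κ (i + 1) := if_pos (by omega)
      rw [gg_succ, gg_succ, ih, this, mul_assoc]
  have e2 : ∀ a, 3 * z / 4 ≤ a →
      ff κ a - ρ * ff κ' a = ff κ (3 * z / 4) - ρ * ff κ' (3 * z / 4) := by
    intro a ha
    induction a, ha using Nat.le_induction with
    | base => rfl
    | succ i hi ih => rw [ff_succ, ff_succ, e1 i hi, ← ih]; ring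
  refine ⟨κ', ρ, ρ0, fun n hn => if_pos hn, e1 z (by omega), ?_, fun a => ?_⟩
  · have h3 : ff κ' z ≤ z := by
      have := sum_le_card_nsmul (range z) (gg κ') 1 fun i _ =>
        (gg_anti p0 (Nat.zero_le i)).trans (gg_zero _).le
      simpa [ff] using this
    have h4 : ∑ n ∈ range z, κ' (n + 1) / ((n : ℝ) + 1) ≤ 3 := by
      have := sum_le_card_nsmul (range z) (fun n => κ' (n + 1) / ((n : ℝ) + 1)) (3 / z)
        fun n _ => by
          simp only [hκ']
          split_ifs with h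
          · have h' : 3 * (z : ℝ) ≤ 4 * (n + 1) := by exact_mod_cast h
            rw [div_le_div_iff₀ (by positivity) z0]
            nlinarith [h2 (n + 1), h0 (n + 1)]
          · rw [zero_div]; positivity
      rw [card_range, nsmul_eq_mul, mul_div_cancel₀ _ z0.ne'] at this
      exact this
    have h5 : 1 ≤ Real.exp 3 * gg κ' z := by
      rw [gg, ← Real.exp_add]
      exact Real.one_le_exp (by linarith)
    nlinarith
  · split_ifs with h
    · have := mul_le_mul_of_nonneg_left (ff_mono κ' (show a ≤ z by omega)) ρ0.le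
      linarith [ff_nonneg κ a]
    · linarith [e2 a (by omega), e2 z (by omega)]

theorem tail_est {F C0 z T g B : ℝ} (hC0 : 0 ≤ C0) (hz : 0 < z) (hg : 0 ≤ g) (hT : 1 ≤ T)
    (hT2 : T ^ 2 ≤ z) (hB : 1 ≤ B) (h : F ≤ C0 * z * T * g) :
    F / z ^ 2 ≤ g * (C0 * (B / √z)) := by
  have hs : 0 < √z := Real.sqrt_pos.2 hz
  have hq : √z * √z = z := Real.mul_self_sqrt hz.le
  have h1 : T ≤ √z := Real.le_sqrt_of_sq_le hT2
  have h2 : T / z ≤ B / √z := by
    rw [div_le_div_iff₀ hz hs]; nlinarith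
  calc F / z ^ 2 ≤ C0 * z * T * g / z ^ 2 := div_le_div_of_nonneg_right h (by positivity)
    _ = g * (C0 * (T / z)) := by field_simp
    _ ≤ _ := by gcongr

theorem ff_lo {κ : ℕ → ℝ} (h2 : ∀ n, κ n ≤ 2) {η : ℝ} (hη : 0 < η) {z a : ℕ} (hz : 1 ≤ z)
    (h : η * z ≤ 8 * a) : ff κ z - gg κ z * (z * (8 / η) ^ 2) ≤ ff κ a := by
  have z0 : (0 : ℝ) < z := by exact_mod_cast hz
  have g0 := gg_pos κ z
  rcases le_total z a with ha | ha
  · have : 0 ≤ gg κ z * (z * (8 / η) ^ 2) := by positivity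
    linarith [ff_mono κ ha]
  · have h1 := sum_le_card_nsmul (Ico a z) (gg κ) (gg κ z * (8 / η) ^ 2) fun i hi => by
      rw [mem_Ico] at hi
      have ai : (a : ℝ) ≤ i := by exact_mod_cast hi.1
      have i0 : (0 : ℝ) < i := by nlinarith
      have h3 := LOSSx.mono (p := 2) (by norm_num) h2 i (by exact_mod_cast i0) z hi.2.le
      rw [Real.rpow_two, Real.rpow_two] at h3
      have h4 : (z : ℝ) ≤ 8 / η * i := by
        rw [div_mul_eq_mul_div, le_div_iff₀ hη]; nlinarith
      have h5 := mul_le_mul_of_nonneg_left (pow_le_pow_left₀ z0.le h4 2) g0.le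
      refine le_of_mul_le_mul_right (a := (i : ℝ) ^ 2) ?_ (by positivity)
      nlinarith
    rw [sum_Ico_eq_sub _ ha, Nat.card_Ico, nsmul_eq_mul, Nat.cast_sub ha] at h1
    have : 0 ≤ (a : ℝ) * (gg κ z * (8 / η) ^ 2) := by positivity
    unfold ff
    nlinarith

theorem ql {C0 η : ℝ} (hC0 : 0 ≤ C0) (hη : 0 < η) (hη1 : η ≤ 1) : ∃ C : ℝ, 0 ≤ C ∧
    ∀ (w : ℕ → ℝ), (∀ i, w i ∈ Set.Icc (0 : ℝ) 1) → ∀ A M : ℕ,
    (∀ n, ∑ i ∈ range n, |2 * w i - 1| ≤ A) → (∀ n : ℕ, η * (n - M / 8) ≤ ∑ i ∈ range n, w i) →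
    ∀ (k z : ℕ) (T κb : ℝ) (κ : ℕ → ℝ), 1 ≤ k → 2 * k ≤ z → 1 ≤ T → T ^ 2 ≤ z →
    (∀ n, 0 ≤ κ n) → (∀ n, κ n ≤ 2) → 0 ≤ κb → κb ≤ 2 →
    (∀ n, 3 * z ≤ 4 * n → 4 * n ≤ 5 * z → κ n ≤ κb) → ff κ z ≤ C0 * z * T * gg κ z →
    ff κ z + gg κ z * (1 - k + psum w z - κb - win (fun i => |2 * w i - 1|) z -
        C * (((k : ℝ) + A) / √(z : ℝ) + mm ((k : ℝ) + A) z + if z ≤ M then z * T else 0)) ≤
      Ex w (z + 1 - k) (4 * z) (fun a _ => ff κ a) := by
  obtain ⟨C, hC, hQ⟩ := got_QLO (Real.exp 3) (Real.exp_pos 3).le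
  set D := 320 * (8 / η) ^ 4 with hD
  set E := (8 / η) ^ 2 with hE
  have D0 : 0 ≤ D := by positivity
  have E0 : 0 ≤ E := by positivity
  refine ⟨2 * C + D * C0 + C0 + 64 * (E + 1), by positivity,
    fun w hw A M hA hM k z T κb κ hk hz T1 T2 h0 h2 b0 b2 hb hf => ?_⟩
  have k1 : (1 : ℝ) ≤ k := by exact_mod_cast hk
  have kz : 2 * (k : ℝ) ≤ z := by exact_mod_cast hz
  have A0 : (0 : ℝ) ≤ A := Nat.cast_nonneg A
  have z0 : (0 : ℝ) < z := by linarith
  have g0 := gg_pos κ z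
  have f0 := ff_nonneg κ z
  have hy : ((z + 1 - k : ℕ) : ℝ) = z + 1 - k := by
    rw [Nat.cast_sub (by omega)]; push_cast; ring
  set B : ℝ := k + A with hB
  have m0 : 0 ≤ mm B z := mm_nonneg z0.le
  have s0 : 0 ≤ B / √(z : ℝ) := by positivity
  set I : ℝ := if z ≤ M then z * T else 0 with hI
  have I0 : 0 ≤ I := by rw [hI]; split_ifs <;> positivity
  set Y := ff κ z * (8 / η) ^ 4 / (z : ℝ) ^ 4 with hY
  have Y0 : 0 ≤ Y := by positivity
  have hYE : Y * Ex w (z + 1 - k) (4 * z) (fun a b => mg w a b ^ 4) ≤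
      gg κ z * (D * C0 * (B / √(z : ℝ))) := by
    have h3 := mul_le_mul_of_nonneg_left (got_MOM w hw A hA (z + 1 - k) (4 * z)).2.2.2 Y0
    have h4 := mul_le_mul_of_nonneg_left (tail_est hC0 z0 g0.le T1 T2 (show 1 ≤ B by linarith) hf) D0
    have h5 : Y * (20 * ((4 * z : ℕ) : ℝ) ^ 2) = D * (ff κ z / (z : ℝ) ^ 2) := by
      rw [hY, hD]; push_cast; field_simp; ring
    linarith
  have hbig : ∀ x : ℝ, η * z ≤ 8 * -x → ff κ z ≤ Y * x ^ 4 := by
    intro x hx
    have h3 : (z : ℝ) ≤ 8 / η * -x := by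
      rw [div_mul_eq_mul_div, le_div_iff₀ hη]; linarith
    have h4 := mul_le_mul_of_nonneg_left (pow_le_pow_left₀ z0.le h3 4) f0
    rw [hY, div_mul_eq_mul_div, le_div_iff₀ (by positivity)]
    refine h4.trans (le_of_eq ?_)
    ring
  have hfull : ∀ a b, Reach (z + 1 - k) (4 * z) a b → a < z → (b : ℝ) = z + 1 - k := by
    intro a b hr ha
    have h3 := hr.1
    have h4 := hr.2.2
    rw [← hy, show b = z + 1 - k by omega]
  have w0 : 0 ≤ win (fun i => |2 * w i - 1|) z := sum_nonneg fun _ _ => abs_nonneg _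
  have ηz : η * z ≤ z := mul_le_of_le_one_left z0.le hη1
  rcases le_total (8 * B) z with h8 | h8
  · obtain ⟨t, t1, t2, t3⟩ := pick (show 1 ≤ B by linarith) (show B ≤ z by linarith)
    obtain ⟨κ', ρ, ρ0, c1, c2, c3, c4⟩ := cut h0 h2 (show 1 ≤ z by omega)
    have h3 := hQ w hw A hA k z t κb κ' hk hz t1 t2 b0 b2
      (fun n n1 n2 => (c1 n n1).le.trans (hb n n1 n2))
      (c3.trans (by
        have := mul_le_mul_of_nonneg_left t1
          (mul_pos (mul_pos (Real.exp_pos 3) z0) (gg_pos κ' z)).le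
        linarith))
    have h4 := Ex_mono w (z + 1 - k) (4 * z) (V' := fun a _ => ff κ a)
      (V := fun a b => (ff κ z - ρ * ff κ' z + ρ * ff κ' a) - Y * mg w a b ^ 4) fun a b hr => by
        have h5 := c4 a
        have h6 : 0 ≤ Y * mg w a b ^ 4 := by positivity
        split_ifs at h5 with h
        · have h7 := hfull a b hr (by omega)
          have h9 : 4 * (a : ℝ) < 3 * z := by exact_mod_cast h
          have h10 := (abs_le.1 ((abs_psum_le w (a + b)).trans (hA _))).1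
          have := hbig (mg w a b) (by unfold mg; linarith)
          linarith
        · linarith
    rw [Ex_sub, Ex_add, Ex_const, Ex_mul, Ex_mul] at h4
    have h5 := mul_le_mul_of_nonneg_left h3 ρ0.le
    have h6 : C * (1 / t + t * min (B ^ 2 / z) B) + D * C0 * (B / √(z : ℝ)) ≤
        (2 * C + D * C0 + C0 + 64 * (E + 1)) * (B / √(z : ℝ) + mm B z + I) := by
      have := mul_le_mul_of_nonneg_left t3 hC
      have : 0 ≤ (C0 + 64 * (E + 1)) * (B / √(z : ℝ) + mm B z + I) := by positivity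
      have : 0 ≤ D * C0 * (mm B z + I) := by positivity
      have : 0 ≤ C * I := by positivity
      linarith
    have h7 := mul_le_mul_of_nonneg_left h6 g0.le
    rw [mul_add, ← mul_assoc, ← c2] at h5
    linarith
  · have h3 := le_mm z0 h8
    have h4 := Ex_mono w (z + 1 - k) (4 * z) (V' := fun a _ => ff κ a)
      (V := fun a b => (ff κ z - gg κ z * (z * E) - gg κ z * (C0 * I)) - Y * mg w a b ^ 4)
      fun a b hr => by
        have h6 : 0 ≤ Y * mg w a b ^ 4 := by positivity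
        have h7 : 0 ≤ gg κ z * (C0 * I) := by positivity
        have h9 : 0 ≤ gg κ z * (z * E) := by positivity
        have h10 := ff_nonneg κ a
        rcases le_or_gt (η * z) (8 * a) with h | h
        · linarith [ff_lo h2 hη (show 1 ≤ z by omega) h]
        · by_cases hzM : z ≤ M
          · rw [hI, if_pos hzM]; linarith
          · have a0 : (0 : ℝ) ≤ a := Nat.cast_nonneg a
            have h11 := hfull a b hr (by
              have : (a : ℝ) < z := by linarith
              exact_mod_cast this)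
            have h12 : (M : ℝ) ≤ z := by exact_mod_cast (not_le.1 hzM).le
            have h13 := hM (a + b)
            have h14 : η * (3 * z / 8) ≤ η * (((a + b : ℕ) : ℝ) - M / 8) :=
              mul_le_mul_of_nonneg_left (by push_cast; linarith) hη.le
            have := hbig (mg w a b) (by
              rw [mg, psum_eq]; push_cast at h13 h14 ⊢; linarith)
            linarith
    rw [Ex_sub, Ex_const, Ex_mul] at h4
    have h5 := (abs_le.1 (abs_psum_le_n hw z)).2
    have h6 : z + z * E + C0 * I + D * C0 * (B / √(z : ℝ)) ≤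
        (2 * C + D * C0 + C0 + 64 * (E + 1)) * (B / √(z : ℝ) + mm B z + I) := by
      have := mul_le_mul_of_nonneg_left h3 (show 0 ≤ E + 1 by positivity)
      have : 0 ≤ C * (B / √(z : ℝ) + mm B z + I) := by positivity
      have : 0 ≤ D * C0 * (mm B z + I) := by positivity
      have : 0 ≤ C0 * (B / √(z : ℝ) + mm B z) := by positivity
      have : 0 ≤ (E + 1) * (B / √(z : ℝ) + I) := by positivity
      linarith
    have h7 := mul_le_mul_of_nonneg_left (show 1 - k + psum w z - κb -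
      win (fun i => |2 * w i - 1|) z - (2 * C + D * C0 + C0 + 64 * (E + 1)) *
        (B / √(z : ℝ) + mm B z + I) ≤ -(z * E + C0 * I + D * C0 * (B / √(z : ℝ))) by linarith) g0.le
    linarith

end Pool.Agent.P.MP_c7fa75_pr.L1
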