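import Pool.Agent.P.MP_c7fa75_pr.R2.All

/-! Quenched upper bound with an error that is summable under a first moment. -/

set_option autoImplicit false

namespace Pool.Agent.P.MP_c7fa75_pr.L1

open MeasureTheory ProbabilityTheory Filter Topology Finset
open scoped ENNReal Classical
open Pool.Agent.P.MP_c7fa75_pr.T Pool.Agent.P.MP_c7fa75_pr.R2

/-- The error caused by a stack of absolute drift `B` at level `z`. -/
noncomputable def mm (B z : ℝ) : ℝ := min (B ^ 2 / z) √(z * B)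

theorem mm_nonneg {B z : ℝ} (hz : 0 ≤ z) : 0 ≤ mm B z := le_min (by positivity) (by positivity)

theorem mm_left {B z : ℝ} (h0 : 0 ≤ B) (hz : 0 < z) (h : B ≤ z) : mm B z = B ^ 2 / z := by
  refine min_eq_left (le_trans ?_ (Real.le_sqrt_of_sq_le (x := B) (by nlinarith)))
  rw [div_le_iff₀ hz]; nlinarith

theorem mm_right {B z : ℝ} (hz : 0 < z) (h : z ≤ B) : mm B z = √(z * B) := by
  refine min_eq_right (le_trans (Real.sqrt_le_iff.2 ⟨by linarith, (by nlinarith : z * B ≤ B ^ 2)⟩) ?_)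
  rw [le_div_iff₀ hz]; nlinarith

theorem le_mm {B z : ℝ} (hz : 0 < z) (h : z ≤ 8 * B) : z ≤ 64 * mm B z := by
  have h1 : z / 64 ≤ mm B z := by
    refine le_min ?_ (Real.le_sqrt_of_sq_le (by nlinarith))
    rw [le_div_iff₀ hz]; nlinarith
  linarith

theorem abs_psum_le_n {w : ℕ → ℝ} (hw : ∀ i, w i ∈ Set.Icc (0 : ℝ) 1) (n : ℕ) :
    |psum w n| ≤ n := by
  refine (abs_psum_le w n).trans ?_
  have := sum_le_card_nsmul (range n) (fun i => |2 * w i - 1|) 1 fun i _ =>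
    abs_le.2 ⟨by linarith [(hw i).1], by linarith [(hw i).2]⟩
  simpa using this

/-- The choice of the free parameter. -/
theorem pick {B z : ℝ} (hB : 1 ≤ B) (h : B ≤ z) : ∃ t : ℝ, 1 ≤ t ∧ t ^ 2 ≤ z ∧
    1 / t + t * min (B ^ 2 / z) B ≤ 2 * (B / √z + mm B z) := by
  have hz : 0 < z := by linarith
  have hs : 0 < √z := Real.sqrt_pos.2 hz
  have hq : √z ^ 2 = z := Real.sq_sqrt hz.le
  have hm : min (B ^ 2 / z) B = B ^ 2 / z := min_eq_left (by rw [div_le_iff₀ hz]; nlinarith)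
  rw [hm, mm_left (by linarith) hz h]
  have h0 : 0 ≤ B ^ 2 / z := by positivity
  have h1 : 0 ≤ B / √z := by positivity
  rcases le_total B √z with hb | hb
  · refine ⟨√z / B, (one_le_div (by linarith)).2 hb, ?_, ?_⟩
    · rw [div_pow, hq]; exact div_le_self hz.le (one_le_pow₀ hB)
    · have e : √z / B * (B ^ 2 / z) = B / √z := by
        rw [← hq, Real.sqrt_sq hs.le]; field_simp
      rw [one_div_div, e]; linarith
  · refine ⟨1, le_rfl, by linarith, ?_⟩
    have : 1 ≤ B / √z := (one_le_div hs).2 hb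
    linarith

theorem gg_sq {κ : ℕ → ℝ} (hκ : ∀ n, 1 / 2 ≤ κ n) {z y : ℕ} (h : z ≤ y) :
    gg κ y ^ 2 * (y + 1) ≤ gg κ z ^ 2 * (z + 1) := by
  induction y, h using Nat.le_induction with
  | base => exact le_rfl
  | succ y _ ih =>
    refine le_trans ?_ ih
    have hy : (0 : ℝ) < y + 1 := by positivity
    rw [gg_succ, mul_pow, mul_assoc, ← Real.exp_nat_mul]
    refine mul_le_mul_of_nonneg_left ?_ (sq_nonneg _)
    have h1 : 1 / ((y : ℝ) + 1) ≤ 2 * (κ (y + 1) / (y + 1)) := by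
      rw [← mul_div_assoc]
      exact div_le_div_of_nonneg_right (by linarith [hκ (y + 1)]) hy.le
    have h2 := Real.add_one_le_exp (2 * (κ (y + 1) / ((y : ℝ) + 1)))
    have h3 : ((y : ℝ) + 1 + 1) = (y + 1) * (1 / ((y : ℝ) + 1) + 1) := by field_simp; ring
    push_cast
    rw [mul_neg, Real.exp_neg, inv_mul_le_iff₀ (Real.exp_pos _), h3, mul_comm]
    exact mul_le_mul_of_nonneg_right (by linarith) hy.le

theorem ff_up {κ : ℕ → ℝ} (hκ : ∀ n, 1 / 2 ≤ κ n) {z y : ℕ} (h : z ≤ y) :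
    ff κ y ≤ ff κ z + 2 * (gg κ z * √((z : ℝ) + 1)) * √(y : ℝ) := by
  have hg := gg_pos κ z
  induction y, h using Nat.le_induction with
  | base => exact le_add_of_nonneg_right (by positivity)
  | succ y hy ih =>
    have h1 : gg κ y * √((y : ℝ) + 1) ≤ gg κ z * √((z : ℝ) + 1) := by
      refine (pow_le_pow_iff_left₀ (mul_nonneg (gg_pos κ y).le (by positivity)) (by positivity)
        two_ne_zero).1 ?_
      rw [mul_pow, mul_pow, Real.sq_sqrt (by positivity), Real.sq_sqrt (by positivity)]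
      exact gg_sq hκ hy
    have h2 : √((y : ℝ) + 1) ^ 2 = y + 1 := Real.sq_sqrt (by positivity)
    have h3 : √(y : ℝ) ^ 2 = y := Real.sq_sqrt (by positivity)
    have h4 : 1 ≤ 2 * √((y : ℝ) + 1) * (√((y : ℝ) + 1) - √(y : ℝ)) := by
      nlinarith [sq_nonneg (√((y : ℝ) + 1) - √(y : ℝ))]
    have h5 : 0 ≤ √((y : ℝ) + 1) - √(y : ℝ) :=
      sub_nonneg.2 (Real.sqrt_le_sqrt (by linarith))
    have h6 := mul_le_mul_of_nonneg_left h4 (gg_pos κ y).le
    have h7 := mul_le_mul_of_nonneg_right h1 h5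
    rw [ff_succ]
    push_cast
    nlinarith

theorem qu : ∃ C : ℝ, 0 ≤ C ∧ ∀ (w : ℕ → ℝ), (∀ i, w i ∈ Set.Icc (0 : ℝ) 1) → ∀ A : ℕ,
    (∀ n, ∑ i ∈ range n, |2 * w i - 1| ≤ A) → ∀ (k z N : ℕ) (κb : ℝ) (κ : ℕ → ℝ),
    1 ≤ k → 2 * k ≤ z → 4 * z ≤ N → (∀ n, 1 / 2 ≤ κ n) → 0 ≤ κb → κb ≤ 2 →
    (∀ n, 3 * z ≤ 4 * n → 4 * n ≤ 5 * z → κb ≤ κ n) →
    Ex w (z + 1 - k) N (fun a _ => ff κ a) ≤
      ff κ z + gg κ z * (1 - k + psum w z - κb + win (fun i => |2 * w i - 1|) z +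
        C * (((k : ℝ) + A) / √(z : ℝ) + mm ((k : ℝ) + A) z)) := by
  obtain ⟨C, hC, hQ⟩ := got_QUP
  refine ⟨2 * C + 7, by positivity, fun w hw A hA k z N κb κ hk hz hN hκ h0 h2 hb => ?_⟩
  have hκ0 : ∀ n, 0 ≤ κ n := fun n => by linarith [hκ n]
  have k1 : (1 : ℝ) ≤ k := by exact_mod_cast hk
  have kz : 2 * (k : ℝ) ≤ z := by exact_mod_cast hz
  have A0 : (0 : ℝ) ≤ A := Nat.cast_nonneg A
  have z0 : (0 : ℝ) < z := by linarith
  have g0 := gg_pos κ z
  have m0 : 0 ≤ mm ((k : ℝ) + A) z := mm_nonneg z0.le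
  have s0 : 0 ≤ ((k : ℝ) + A) / √(z : ℝ) := by positivity
  rcases le_total ((k : ℝ) + A) z with hB | hB
  · obtain ⟨t, t1, t2, t3⟩ := pick (by linarith) hB
    refine (hQ w hw A hA k z N t κb κ hk hz hN t1 t2 hκ0 h0 h2 hb).trans
      (add_le_add le_rfl (mul_le_mul_of_nonneg_left ?_ g0.le))
    nlinarith [mul_le_mul_of_nonneg_left t3 hC]
  · have hy : ((z + 1 - k : ℕ) : ℝ) = z + 1 - k := by
      rw [Nat.cast_sub (by omega)]; push_cast; ring
    have h1 : Ex w (z + 1 - k) N (fun a _ => ff κ a) ≤ Ex w (z + 1 - k) N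
        (fun a b => ff κ (z + A) + gg κ (z + A) * mg w a b) := by
      refine Ex_mono w _ _ fun a b hr => ?_
      have hb' : (b : ℝ) ≤ z + 1 - k := by rw [← hy]; exact_mod_cast hr.1
      have h3 := (abs_le.1 ((abs_psum_le w (a + b)).trans (hA _))).2
      have h4 := (got_PUP κ 0 1 (z + A) a hκ0 le_rfl (by norm_num) le_rfl
        (by push_cast; linarith) fun n _ _ => hκ0 n).2
      have h5 : gg κ (z + A) * ((a : ℝ) - (z + A : ℕ)) ≤ gg κ (z + A) * mg w a b :=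
        mul_le_mul_of_nonneg_left (by unfold mg; push_cast; linarith) (gg_pos _ _).le
      linarith
    rw [Ex_add, Ex_const, Ex_mul, (got_MOM w hw A hA _ _).1, mul_zero, add_zero] at h1
    have h3 := ff_up hκ (Nat.le_add_right z A)
    have h4 : √((z : ℝ) + 1) * √((z + A : ℕ) : ℝ) ≤ 2 * √(z * ((k : ℝ) + A)) := by
      rw [← Real.sqrt_mul (by positivity)]
      refine Real.sqrt_le_iff.2 ⟨by positivity, ?_⟩
      rw [mul_pow, Real.sq_sqrt (by positivity)]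
      push_cast
      nlinarith
    have h5 : (z : ℝ) ≤ √(z * ((k : ℝ) + A)) := Real.le_sqrt_of_sq_le (by nlinarith)
    have h6 := (abs_le.1 (abs_psum_le_n hw z)).1
    have w0 : 0 ≤ win (fun i => |2 * w i - 1|) z := sum_nonneg fun _ _ => abs_nonneg _
    rw [mm_right z0 hB] at m0 ⊢
    have h7 : 4 * √(z * ((k : ℝ) + A)) ≤ 1 - k + psum w z - κb + win (fun i => |2 * w i - 1|) z +
        (2 * C + 7) * (((k : ℝ) + A) / √(z : ℝ) + √(z * ((k : ℝ) + A))) := by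
      nlinarith [mul_nonneg hC s0, mul_nonneg hC m0]
    have h8 := mul_le_mul_of_nonneg_left h7 g0.le
    have h9 := mul_le_mul_of_nonneg_left h4 g0.le
    nlinarith

end Pool.Agent.P.MP_c7fa75_pr.L1
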